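import Pool.Agent.Helper82.RD.Defs

/-! Project RD (owner helper82), module EXT. -/

set_option autoImplicit false

open Finset MP86d903 Pool.Agent.Helper82.RD

namespace Pool.Agent.Helper58.RD

variable {ι V : Type} [DecidableEq ι] [Fintype ι] [Fintype V] [DecidableEq V]
  {vs ng : ι → Finset V} {q : ℕ}

theorem pEXT {Z B : Finset V} {ρ : V → Bool} (hSa : SPa vs q Z) (hSb : SPb vs Z)
    (hB : (inside vs B).card ≤ q) (hρ : Valid vs ng ρ Z) :
    ∃ σ : V → Bool, (∀ i ∈ Z, σ i = ρ i) ∧ Valid vs ng σ B ∧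
      Valid vs ng (MP86d903.flip Z σ) B := by
  classical
  set 𝒮 := inside vs B \ inside vs Z with h𝒮
  have hnot : ∀ c ∈ 𝒮, ¬ vs c ⊆ Z := by
    intro c hc h
    exact (mem_sdiff.mp hc).2 (mem_inside.mpr h)
  obtain ⟨σ, hσA, hσ⟩ := exists_split (ng := ng) Z ρ 𝒮 (by
      intro S hS hne
      have hSq : S.card ≤ q := (card_le_card (hS.trans sdiff_subset)).trans hB
      have h1 := hSa S hne hSq (fun c hc => hnot c (hS hc))
      unfold gg at h1
      refine exists_unique_nbr (vs := vs) (A' := Z) (S := S) ?_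
      have h2 : ((∑ c ∈ S, (vs c \ Z).card : ℕ) : ℤ) = ∑ c ∈ S, ((vs c \ Z).card : ℤ) := by
        push_cast
        rfl
      omega) (fun c hc => hSb c (hnot c hc))
  refine ⟨σ, hσA, ?_, ?_⟩
  · intro c hc
    by_cases hcA : vs c ⊆ Z
    · obtain ⟨i, hi, hl⟩ := hρ c hcA
      exact ⟨i, hi, lit_congr (hσA i (hcA hi)).symm hl⟩
    · obtain ⟨i, hi, j, hj, hli, hlj⟩ := hσ c (mem_sdiff.mpr ⟨mem_inside.mpr hc,
        fun h => hcA (mem_inside.mp h)⟩)
      exact ⟨i, (mem_sdiff.mp hi).1, hli⟩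
  · intro c hc
    by_cases hcA : vs c ⊆ Z
    · obtain ⟨i, hi, hl⟩ := hρ c hcA
      refine ⟨i, hi, lit_congr ?_ hl⟩
      unfold MP86d903.flip
      rw [if_pos (hcA hi)]
      exact (hσA i (hcA hi)).symm
    · obtain ⟨i, hi, j, hj, hli, hlj⟩ := hσ c (mem_sdiff.mpr ⟨mem_inside.mpr hc,
        fun h => hcA (mem_inside.mp h)⟩)
      exact ⟨j, (mem_sdiff.mp hj).1, lit_flip (mem_sdiff.mp hj).2 hlj⟩

end Pool.Agent.Helper58.RD
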