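import Mathlib.Analysis.SpecialFunctions.Pow.Real
import Mathlib.Analysis.SpecialFunctions.Exp
import Mathlib.Analysis.Complex.ExponentialBounds
import Mathlib.Analysis.SpecialFunctions.Pow.Asymptotics

/-! Project RD (owner helper82), module NUM: numbers only. -/

set_option autoImplicit false

open Filter

namespace Pool.Agent.Helper58.RD

/-- the exponential estimate -/
theorem expo {ε δ : ℝ} {n w t₀ s : ℕ} (hε0 : 0 < ε) (hδ0 : 0 < δ) (hδ : δ ≤ ε ^ 2 / 2400)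
    (hn0 : (0 : ℝ) < n) (h3 : 400 ≤ n * ε) (hw1 : ε * n ≤ w) (hwn : (w : ℝ) ≤ n)
    (hs2 : (s : ℝ) < δ * n + 1) (ht2' : (w : ℝ) < 74 * t₀ + 74) :
    (2 : ℝ) ^ (δ * n) * (1 - w / (8 * n)) ^ t₀ * 2 ^ s < 2 := by
  have hδn : 0 < δ * n := by positivity
  have h5 : (1 - (w : ℝ) / (8 * n)) ≤ Real.exp (-(ε / 8)) := by
    have h6 : ε / 8 ≤ (w : ℝ) / (8 * n) := by
      rw [div_le_div_iff₀ (by norm_num) (by positivity)]
      nlinarith
    have h7 := Real.add_one_le_exp (-(ε / 8))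
    linarith
  have h5' : 0 ≤ 1 - (w : ℝ) / (8 * n) := by
    rw [sub_nonneg, div_le_one (by positivity)]
    nlinarith
  have h6 : (1 - (w : ℝ) / (8 * n)) ^ t₀ ≤ Real.exp (-(ε / 8) * t₀) := by
    rw [mul_comm (-(ε / 8)) (t₀ : ℝ), Real.exp_nat_mul]
    exact pow_le_pow_left₀ h5' h5 _
  have h7 : (2 : ℝ) ^ (δ * n) ≤ Real.exp (δ * n) := by
    rw [Real.rpow_def_of_pos (by norm_num)]
    apply Real.exp_le_exp.mpr
    have := Real.log_two_lt_d9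
    nlinarith
  have h8 : (2 : ℝ) ^ s ≤ 2 * Real.exp (δ * n) := by
    rw [← Real.rpow_natCast]
    calc (2 : ℝ) ^ (s : ℝ) ≤ 2 ^ (δ * n + 1) :=
          Real.rpow_le_rpow_of_exponent_le (by norm_num) hs2.le
      _ = 2 ^ (δ * n) * 2 := by
          rw [Real.rpow_add (by norm_num), Real.rpow_one]
      _ ≤ 2 * Real.exp (δ * n) := by linarith
  calc (2 : ℝ) ^ (δ * n) * (1 - w / (8 * n)) ^ t₀ * 2 ^ s
      ≤ Real.exp (δ * n) * Real.exp (-(ε / 8) * t₀) * (2 * Real.exp (δ * n)) := by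
        gcongr
    _ = 2 * Real.exp (δ * n + -(ε / 8) * t₀ + δ * n) := by
        rw [Real.exp_add, Real.exp_add]
        ring
    _ < 2 * 1 := by
        have h9 : Real.exp (δ * n + -(ε / 8) * t₀ + δ * n) < 1 := by
          rw [Real.exp_lt_one_iff]
          have h10 : ε * n / 74 - 1 < t₀ := by
            rw [div_sub_one (by norm_num), div_lt_iff₀ (by norm_num)]
            linarith
          have h11 : ε / 8 * (ε * n / 74 - 1) ≤ ε / 8 * t₀ :=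
            mul_le_mul_of_nonneg_left h10.le (by positivity)
          have h12 : ε * 400 ≤ ε * (n * ε) := mul_le_mul_of_nonneg_left h3 hε0.le
          have h13 : δ * n ≤ ε ^ 2 / 2400 * n := mul_le_mul_of_nonneg_right hδ hn0.le
          nlinarith
        linarith
    _ = 2 := by norm_num

theorem pNUM {ρ η Δ : ℝ} (hρ : 0 < ρ) (hη : 0 < η) (hΔ : 0 < Δ) :
    ∃ (ε δ : ℝ) (D : ℕ), 0 < ε ∧ 0 < δ ∧ ∀ᶠ n : ℕ in Filter.atTop, ∃ w t₀ s k r M : ℕ,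
      34 * M ≤ ⌊ρ * n⌋₊ ∧
      t₀ + k + 2 * w + 2 * ((76 + 12 * D) * r * r) + 2 * (r * r) + 4 * r ≤ M ∧
      (37 * M : ℝ) ≤ η * n ∧ ε * n ≤ w ∧ (∀ j : ℕ, ε * n ≤ j → w ≤ j) ∧ 0 < δ * n ∧
      δ * n ≤ s ∧ 74 * t₀ ≤ w ∧ w ≤ n ∧ 18 * r + 10 ≤ 22 * M ∧
      (∀ j : ℕ, (D + 1) * j ≤ 3 * ⌊Δ * n⌋₊ → j ≤ k) ∧ δ * √(n : ℝ) ≤ r + 1 ∧
      (2 : ℝ) ^ (δ * n) * (1 - w / (8 * n)) ^ t₀ * 2 ^ s < 2 := by
  set ε : ℝ := min (min (ρ / 200) (η / 400)) (1 / 4) with hε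
  have hε0 : 0 < ε := by
    rw [hε]
    positivity
  have hεr : ε ≤ ρ / 200 := (min_le_left _ _).trans (min_le_left _ _)
  have hεη : ε ≤ η / 400 := (min_le_left _ _).trans (min_le_right _ _)
  have hε4 : ε ≤ 1 / 4 := min_le_right _ _
  obtain ⟨D, hD⟩ : ∃ D : ℕ, D = ⌈6 * Δ / ε⌉₊ := ⟨_, rfl⟩
  have hD1 : 6 * Δ ≤ D * ε := by
    have : 6 * Δ / ε ≤ D := by rw [hD]; exact Nat.le_ceil _
    rwa [div_le_iff₀ hε0] at this
  set C : ℝ := 160 + 24 * D with hC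
  have hC0 : 0 < C := by positivity
  set δ : ℝ := min (ε ^ 2 / 2400) (√(ε / (2 * C))) with hδ
  have hδ0 : 0 < δ := by
    rw [hδ]
    positivity
  have hδ1 : δ ≤ ε ^ 2 / 2400 := min_le_left _ _
  have hδ2 : δ ≤ √(ε / (2 * C)) := min_le_right _ _
  have hδ3 : δ ^ 2 ≤ ε / (2 * C) := by
    calc δ ^ 2 ≤ √(ε / (2 * C)) ^ 2 := pow_le_pow_left₀ hδ0.le hδ2 2
      _ = ε / (2 * C) := Real.sq_sqrt (by positivity)
  have hδ4 : C * δ ^ 2 ≤ ε / 2 := by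
    calc C * δ ^ 2 ≤ C * (ε / (2 * C)) := mul_le_mul_of_nonneg_left hδ3 hC0.le
      _ = ε / 2 := by field_simp
  refine ⟨ε, δ, D, hε0, hδ0, ?_⟩
  have hev : ∀ᶠ n : ℕ in atTop, 5 / ε + 10 / ρ + 400 / ε + 4 ≤ (n : ℝ) :=
    tendsto_natCast_atTop_atTop.eventually_ge_atTop _
  filter_upwards [hev] with n hn
  have p1 : 0 < 5 / ε := by positivity
  have p2 : 0 < 10 / ρ := by positivity
  have p3 : 0 < 400 / ε := by positivity
  have h1 : 5 / ε ≤ n := by linarith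
  have h2 : 10 / ρ ≤ n := by linarith
  have h3 : 400 / ε ≤ n := by linarith
  have h4 : (4 : ℝ) ≤ n := by linarith
  rw [div_le_iff₀ hε0] at h1 h3
  rw [div_le_iff₀ hρ] at h2
  have hn0 : (0 : ℝ) < n := by linarith
  have hδn : 0 < δ * n := by positivity
  set w := ⌈ε * n⌉₊ with hw
  set s := ⌈δ * n⌉₊ with hs
  set k := ⌊3 * Δ * n / (D + 1)⌋₊ with hk
  set r := ⌊δ * √(n : ℝ)⌋₊ with hr
  have hw1 : ε * n ≤ w := Nat.le_ceil _
  have hw2 : (w : ℝ) < ε * n + 1 := Nat.ceil_lt_add_one (by positivity)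
  have hs1 : δ * n ≤ s := Nat.le_ceil _
  have hs2 : (s : ℝ) < δ * n + 1 := Nat.ceil_lt_add_one hδn.le
  set t₀ := w / 74 with ht₀
  have ht1 : 74 * t₀ ≤ w := Nat.mul_div_le w 74
  have ht2 : w < 74 * t₀ + 74 := by
    rw [ht₀]
    omega
  have ht1' : (74 * t₀ : ℝ) ≤ w := by exact_mod_cast ht1
  have ht2' : (w : ℝ) < 74 * t₀ + 74 := by exact_mod_cast ht2
  -- bound for k
  have hD0 : (0 : ℝ) < (D : ℝ) + 1 := by positivity
  have hk1 : (k : ℝ) ≤ ε * n / 2 := by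
    have hk2 : (k : ℝ) ≤ 3 * Δ * n / (D + 1) := Nat.floor_le (by positivity)
    refine hk2.trans ?_
    rw [div_le_iff₀ hD0]
    have : 6 * Δ * n ≤ D * ε * n := mul_le_mul_of_nonneg_right hD1 hn0.le
    nlinarith [mul_pos hε0 hn0]
  have hk3 : ∀ j : ℕ, (D + 1) * j ≤ 3 * ⌊Δ * n⌋₊ → j ≤ k := by
    intro j hj
    rw [hk]
    apply Nat.le_floor
    rw [le_div_iff₀ hD0]
    have h5 : (((D + 1) * j : ℕ) : ℝ) ≤ ((3 * ⌊Δ * n⌋₊ : ℕ) : ℝ) := by exact_mod_cast hj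
    push_cast at h5
    have h6 : (⌊Δ * n⌋₊ : ℝ) ≤ Δ * n := Nat.floor_le (by positivity)
    nlinarith
  -- bound for r
  have hsq : √(n : ℝ) * √(n : ℝ) = n := Real.mul_self_sqrt hn0.le
  have hsq0 : 0 < √(n : ℝ) := Real.sqrt_pos.2 hn0
  have hr1 : (r : ℝ) ≤ δ * √(n : ℝ) := Nat.floor_le (by positivity)
  have hr2 : δ * √(n : ℝ) ≤ r + 1 := (Nat.lt_floor_add_one _).le
  have hrr : C * ((r : ℝ) * r) ≤ ε / 2 * n := by
    have h5 : (r : ℝ) * r ≤ (δ * √(n : ℝ)) * (δ * √(n : ℝ)) :=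
      mul_le_mul hr1 hr1 (Nat.cast_nonneg _) (by positivity)
    have h6 : (δ * √(n : ℝ)) * (δ * √(n : ℝ)) = δ ^ 2 * n := by
      rw [mul_mul_mul_comm, hsq]
      ring
    rw [h6] at h5
    calc C * ((r : ℝ) * r) ≤ C * (δ ^ 2 * n) := mul_le_mul_of_nonneg_left h5 hC0.le
      _ = C * δ ^ 2 * n := by ring
      _ ≤ ε / 2 * n := mul_le_mul_of_nonneg_right hδ4 hn0.le
  -- 4 r ≤ ε n / 2
  have h4r : 4 * (r : ℝ) ≤ ε * n / 2 := by
    have hs1n : √(n : ℝ) ≤ n := by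
      have : (1 : ℝ) ≤ √(n : ℝ) := by
        rw [← Real.sqrt_one]
        exact Real.sqrt_le_sqrt (by linarith)
      nlinarith
    have h5 : δ ≤ ε / 8 := by
      refine hδ1.trans ?_
      nlinarith
    calc 4 * (r : ℝ) ≤ 4 * (δ * √(n : ℝ)) := by linarith
      _ ≤ 4 * (ε / 8 * n) := by
        have := mul_le_mul h5 hs1n hsq0.le (by positivity)
        linarith
      _ = ε * n / 2 := by ring
  obtain ⟨M, hMdef⟩ : ∃ M : ℕ,
      M = t₀ + k + 2 * w + 2 * ((76 + 12 * D) * r * r) + 2 * (r * r) + 4 * r := ⟨_, rfl⟩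
  have hM : (M : ℝ) ≤ 5 * (ε * n) := by
    rw [hMdef]
    push_cast
    have h5 : (t₀ : ℝ) + k + 2 * w + 2 * ((76 + 12 * D) * r * r) + 2 * (r * r) + 4 * r ≤
        t₀ + k + 2 * w + C * (r * r) + 4 * r := by
      rw [hC]
      nlinarith [mul_nonneg (Nat.cast_nonneg (α := ℝ) r) (Nat.cast_nonneg (α := ℝ) r)]
    linarith
  have hwn : (w : ℝ) ≤ n := by nlinarith
  have hwone : 1 ≤ w := by
    have : (0 : ℝ) < w := lt_of_lt_of_le (by positivity) hw1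
    exact_mod_cast this
  refine ⟨w, t₀, s, k, r, M, ?_, hMdef.ge, ?_, hw1, ?_, hδn, hs1, ht1, ?_, ?_, hk3, hr2, ?_⟩
  · rw [Nat.le_floor_iff (by positivity), Nat.cast_mul]
    have h5 : ε * n ≤ ρ / 200 * n := mul_le_mul_of_nonneg_right hεr hn0.le
    push_cast
    nlinarith
  · have h5 : ε * n ≤ η / 400 * n := mul_le_mul_of_nonneg_right hεη hn0.le
    nlinarith
  · intro j hj
    exact Nat.ceil_le.mpr hj
  · exact_mod_cast hwn
  · omega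
  · exact expo hε0 hδ0 hδ1 hn0 h3 hw1 hwn hs2 ht2'

end Pool.Agent.Helper58.RD
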